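import Mathlib

set_option autoImplicit false

open MeasureTheory ProbabilityTheory Filter Topology
open scoped ENNReal NNReal

namespace Pool.Agent.Q218.BL

variable {N : ℕ}

/-- maximum of the coordinates -/
noncomputable def fm (x : Fin (N + 1) → ℝ) : ℝ := Finset.univ.sup' Finset.univ_nonempty x

lemma am_ne (x : Fin (N + 1) → ℝ) :
    (Finset.univ.filter (fun i => ∀ j, x j ≤ x i)).Nonempty := by
  obtain ⟨i, -, hi⟩ := Finset.exists_max_image Finset.univ x Finset.univ_nonempty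
  exact ⟨i, by simpa using fun j => hi j (Finset.mem_univ _)⟩

/-- first index attaining the maximum -/
noncomputable def am (x : Fin (N + 1) → ℝ) : Fin (N + 1) :=
  (Finset.univ.filter (fun i => ∀ j, x j ≤ x i)).min' (am_ne x)

lemma am_spec (x : Fin (N + 1) → ℝ) (j : Fin (N + 1)) : x j ≤ x (am x) := by
  have h := Finset.min'_mem _ (am_ne x)
  rw [Finset.mem_filter] at h
  exact h.2 j

lemma fm_eq (x : Fin (N + 1) → ℝ) : fm x = x (am x) := by
  apply le_antisymm
  · exact Finset.sup'_le _ _ (fun j _ => am_spec x j)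
  · exact Finset.le_sup' x (Finset.mem_univ _)

lemma le_fm (x : Fin (N + 1) → ℝ) (j : Fin (N + 1)) : x j ≤ fm x :=
  Finset.le_sup' x (Finset.mem_univ _)

lemma am_eq_iff (x : Fin (N + 1) → ℝ) (i : Fin (N + 1)) :
    am x = i ↔ (∀ j, x j ≤ x i) ∧ ∀ k, k < i → ¬ ∀ j, x j ≤ x k := by
  constructor
  · rintro rfl
    refine ⟨am_spec x, fun k hk hk2 => ?_⟩
    have := Finset.min'_le (Finset.univ.filter (fun i => ∀ j, x j ≤ x i)) k (by simpa using hk2)
    exact absurd hk (not_lt.2 this)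
  · rintro ⟨h1, h2⟩
    apply le_antisymm
    · exact Finset.min'_le _ _ (by simpa using h1)
    · by_contra h
      exact h2 _ (not_le.1 h) (am_spec x)

lemma measurable_am : Measurable (am (N := N)) := by
  apply measurable_to_countable'
  intro i
  have : am ⁻¹' {i} = {x : Fin (N + 1) → ℝ | (∀ j, x j ≤ x i) ∧
      ∀ k, k < i → ¬ ∀ j, x j ≤ x k} := by
    ext x
    exact am_eq_iff x i
  rw [this]
  have h1 : ∀ k : Fin (N + 1), MeasurableSet {x : Fin (N + 1) → ℝ | ∀ j, x j ≤ x k} := by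
    intro k
    have : {x : Fin (N + 1) → ℝ | ∀ j, x j ≤ x k} =
        ⋂ j : Fin (N + 1), {x : Fin (N + 1) → ℝ | x j ≤ x k} := by
      ext x; simp
    rw [this]
    exact MeasurableSet.iInter fun j =>
      measurableSet_le (measurable_pi_apply j) (measurable_pi_apply k)
  have h2 : {x : Fin (N + 1) → ℝ | (∀ j, x j ≤ x i) ∧ ∀ k, k < i → ¬ ∀ j, x j ≤ x k} =
      {x : Fin (N + 1) → ℝ | ∀ j, x j ≤ x i} ∩
        ⋂ k : Fin (N + 1), ⋂ _ : k < i, {x : Fin (N + 1) → ℝ | ∀ j, x j ≤ x k}ᶜ := by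
    ext x; simp
  rw [h2]
  exact (h1 i).inter (MeasurableSet.iInter fun k => MeasurableSet.iInter fun _ => (h1 k).compl)

lemma measurable_apply_am {α : Type*} [MeasurableSpace α] {f g : α → (Fin (N + 1) → ℝ)}
    (hf : Measurable f) (hg : Measurable g) : Measurable (fun a => f a (am (g a))) := by
  have h : (fun a => f a (am (g a))) = fun a => ∑ i, if am (g a) = i then f a i else 0 := by
    funext a
    simp
  rw [h]
  refine Finset.measurable_sum _ fun i _ => ?_
  refine Measurable.ite ?_ ((measurable_pi_apply i).comp hf) measurable_const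
  exact (measurable_am.comp hg) (measurableSet_singleton i)

lemma measurable_fm : Measurable (fm (N := N)) := by
  have : fm (N := N) = fun x => x (am x) := funext fm_eq
  rw [this]
  exact measurable_apply_am measurable_id measurable_id

variable (μ : Measure (Fin (N + 1) → ℝ)) [IsGaussian μ]

lemma coord_gauss (i : Fin (N + 1)) (hμ : μ[id] = 0) :
    μ.map (fun x => x i) = gaussianReal 0 (Var[fun x : Fin (N + 1) → ℝ => x i; μ]).toNNReal := by
  have hg : HasGaussianLaw (fun x : Fin (N + 1) → ℝ => x i) μ :=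
    (IsGaussian.hasGaussianLaw_id (μ := μ)).map (ContinuousLinearMap.proj (R := ℝ)
      (φ := fun _ : Fin (N + 1) => ℝ) i)
  have h := hg.map_eq_gaussianReal
  have h0 : μ[fun x : Fin (N + 1) → ℝ => x i] = 0 := by
    have h1 := (ContinuousLinearMap.proj (R := ℝ) (φ := fun _ : Fin (N + 1) => ℝ) i).integral_comp_comm
      (IsGaussian.integrable_id (μ := μ))
    simp only [id] at h1 hμ
    rw [hμ] at h1
    simpa using h1
  rw [h0] at h
  exact h

lemma coord_mgf (i : Fin (N + 1)) (hμ : μ[id] = 0) (c : ℝ) {v : ℝ}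
    (hv : Var[fun x : Fin (N + 1) → ℝ => x i; μ] ≤ v) :
    ∫⁻ x, ENNReal.ofReal (Real.exp (c * x i)) ∂μ ≤ ENNReal.ofReal (Real.exp (c ^ 2 * v / 2)) := by
  have h := coord_gauss μ i hμ
  have hm := mgf_gaussianReal h c
  have hint : Integrable (fun x : Fin (N + 1) → ℝ => Real.exp (c * x i)) μ := by
    have := integrable_exp_mul_gaussianReal (μ := 0)
      (v := (Var[fun x : Fin (N + 1) → ℝ => x i; μ]).toNNReal) c
    rw [← h] at this
    have hmi : AEMeasurable (fun x : Fin (N + 1) → ℝ => x i) μ :=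
      (measurable_pi_apply i).aemeasurable
    have hms : AEStronglyMeasurable (fun x : ℝ => Real.exp (c * x))
        (μ.map (fun x : Fin (N + 1) → ℝ => x i)) :=
      (Real.measurable_exp.comp (measurable_id.const_mul c)).aestronglyMeasurable
    exact (integrable_map_measure hms hmi).1 this
  rw [← ofReal_integral_eq_lintegral_ofReal hint (Eventually.of_forall fun _ => (Real.exp_pos _).le)]
  apply ENNReal.ofReal_le_ofReal
  rw [mgf] at hm
  rw [hm]
  apply Real.exp_le_exp.2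
  rw [Real.coe_toNNReal _ (variance_nonneg _ _)]
  nlinarith [sq_nonneg c]

lemma rot_mgf (hμ : μ[id] = 0) (c : ℝ) {v : ℝ}
    (hv : ∀ i, Var[fun x : Fin (N + 1) → ℝ => x i; μ] ≤ v) (θ : ℝ) :
    ∫⁻ p, ENNReal.ofReal (Real.exp (c * (-(Real.sin θ) • p.1 + Real.cos θ • p.2)
      (am (Real.cos θ • p.1 + Real.sin θ • p.2)))) ∂(μ.prod μ) ≤
      ENNReal.ofReal (Real.exp (c ^ 2 * v / 2)) := by
  have hrot := IsGaussian.map_rotation_eq_self (μ := μ) hμ θ
  have hmeas : Measurable (fun q : (Fin (N + 1) → ℝ) × (Fin (N + 1) → ℝ) =>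
      ENNReal.ofReal (Real.exp (c * q.2 (am q.1)))) := by
    apply ENNReal.measurable_ofReal.comp
    apply Real.measurable_exp.comp
    exact (measurable_apply_am measurable_snd measurable_fst).const_mul c
  have h1 : ∫⁻ p, ENNReal.ofReal (Real.exp (c * (-(Real.sin θ) • p.1 + Real.cos θ • p.2)
      (am (Real.cos θ • p.1 + Real.sin θ • p.2)))) ∂(μ.prod μ) =
      ∫⁻ q, ENNReal.ofReal (Real.exp (c * q.2 (am q.1)))
        ∂((μ.prod μ).map (ContinuousLinearMap.rotation θ)) := by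
    rw [lintegral_map hmeas (by fun_prop)]
    rfl
  rw [h1, hrot, lintegral_prod _ hmeas.aemeasurable]
  calc ∫⁻ x, ∫⁻ y, ENNReal.ofReal (Real.exp (c * y (am x))) ∂μ ∂μ
      ≤ ∫⁻ _x, ENNReal.ofReal (Real.exp (c ^ 2 * v / 2)) ∂μ :=
        lintegral_mono fun x => coord_mgf μ (am x) hμ c (hv _)
    _ = ENNReal.ofReal (Real.exp (c ^ 2 * v / 2)) := by simp

/-- the rotated vectors -/
noncomputable def XX (θ : ℝ) (p : (Fin (N + 1) → ℝ) × (Fin (N + 1) → ℝ)) : Fin (N + 1) → ℝ :=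
  Real.cos θ • p.1 + Real.sin θ • p.2

noncomputable def YY (θ : ℝ) (p : (Fin (N + 1) → ℝ) × (Fin (N + 1) → ℝ)) : Fin (N + 1) → ℝ :=
  -(Real.sin θ) • p.1 + Real.cos θ • p.2

lemma XX_meas (θ : ℝ) : Measurable (XX (N := N) θ) := by
  unfold XX; fun_prop

lemma YY_meas (θ : ℝ) : Measurable (YY (N := N) θ) := by
  unfold YY; fun_prop

lemma XX_sub (θ δ : ℝ) (p : (Fin (N + 1) → ℝ) × (Fin (N + 1) → ℝ)) :
    XX (θ - δ) p = Real.cos δ • XX θ p - Real.sin δ • YY θ p := by
  unfold XX YY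
  rw [Real.cos_sub, Real.sin_sub]
  module

/-- one step of the comparison -/
lemma step_le (θ δ : ℝ) (p : (Fin (N + 1) → ℝ) × (Fin (N + 1) → ℝ)) :
    fm (XX θ p) - fm (XX (θ - δ) p) ≤
      (1 - Real.cos δ) * fm (XX θ p) + Real.sin δ * YY θ p (am (XX θ p)) := by
  have h1 := le_fm (XX (θ - δ) p) (am (XX θ p))
  have h2 : XX (θ - δ) p (am (XX θ p)) =
      Real.cos δ * XX θ p (am (XX θ p)) - Real.sin δ * YY θ p (am (XX θ p)) := by
    rw [XX_sub]; rfl
  rw [h2, ← fm_eq (XX θ p)] at h1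
  linarith

lemma sum_le (δ : ℝ) (K : ℕ) (p : (Fin (N + 1) → ℝ) × (Fin (N + 1) → ℝ)) :
    fm (XX (K * δ) p) - fm (XX 0 p) ≤
      (1 - Real.cos δ) * (∑ k ∈ Finset.range K, fm (XX ((k + 1 : ℕ) * δ) p)) +
        Real.sin δ * ∑ k ∈ Finset.range K, YY ((k + 1 : ℕ) * δ) p (am (XX ((k + 1 : ℕ) * δ) p)) := by
  induction K with
  | zero => simp
  | succ K ih =>
    rw [Finset.sum_range_succ, Finset.sum_range_succ]
    have h := step_le ((K + 1 : ℕ) * δ) δ p
    have e : ((K + 1 : ℕ) : ℝ) * δ - δ = K * δ := by push_cast; ring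
    rw [e] at h
    nlinarith

lemma fm_abs_le (x : Fin (N + 1) → ℝ) : |fm x| ≤ ∑ i, |x i| := by
  rw [fm_eq]
  exact Finset.single_le_sum (f := fun i => |x i|) (fun i _ => abs_nonneg _) (Finset.mem_univ _)

lemma fm_integrable : Integrable (fun x => fm x) μ := by
  have hid := IsGaussian.integrable_id (μ := μ)
  have hi : ∀ i, Integrable (fun x : Fin (N + 1) → ℝ => |x i|) μ := fun i =>
    ((ContinuousLinearMap.proj (R := ℝ) (φ := fun _ : Fin (N + 1) => ℝ) i).integrable_comp hid).abs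
  have hs : Integrable (fun x : Fin (N + 1) → ℝ => ∑ i, |x i|) μ :=
    integrable_finsetSum _ (fun i _ => hi i)
  refine hs.mono' measurable_fm.aestronglyMeasurable (Eventually.of_forall fun x => ?_)
  rw [Real.norm_eq_abs]
  exact fm_abs_le x

lemma XX_law (hμ : μ[id] = 0) (θ : ℝ) : (μ.prod μ).map (XX θ) = μ := by
  have hrot := IsGaussian.map_rotation_eq_self (μ := μ) hμ θ
  have h1 : XX (N := N) θ = Prod.fst ∘ (ContinuousLinearMap.rotation θ) := by
    funext p; rfl
  rw [h1, ← Measure.map_map measurable_fst (by fun_prop), hrot, Measure.map_fst_prod]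
  simp

lemma fmXX_integrable (hμ : μ[id] = 0) (θ : ℝ) :
    Integrable (fun p => |fm (XX θ p)|) (μ.prod μ) := by
  have h := fm_integrable μ
  rw [← XX_law μ hμ θ] at h
  rw [integrable_map_measure measurable_fm.aestronglyMeasurable (XX_meas θ).aemeasurable] at h
  exact h.abs

lemma fmXX_integral (hμ : μ[id] = 0) (θ : ℝ) :
    ∫ p, |fm (XX θ p)| ∂(μ.prod μ) = ∫ x, |fm x| ∂μ := by
  conv_rhs => rw [← XX_law μ hμ θ]
  rw [integral_map (XX_meas θ).aemeasurable]
  exact measurable_fm.abs.aestronglyMeasurable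

/-- exponential moment of the second sum -/
lemma exp_sum (hμ : μ[id] = 0) {v : ℝ}
    (hv : ∀ i, Var[fun x : Fin (N + 1) → ℝ => x i; μ] ≤ v) (c δ : ℝ) (K : ℕ) (hK : 0 < K) :
    ∫⁻ p, ENNReal.ofReal (Real.exp (c * ∑ k ∈ Finset.range K,
      YY ((k + 1 : ℕ) * δ) p (am (XX ((k + 1 : ℕ) * δ) p)))) ∂(μ.prod μ) ≤
      ENNReal.ofReal (Real.exp ((c * K) ^ 2 * v / 2)) := by
  have hKr : (0 : ℝ) < K := by exact_mod_cast hK
  have hpt : ∀ p : (Fin (N + 1) → ℝ) × (Fin (N + 1) → ℝ),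
      ENNReal.ofReal (Real.exp (c * ∑ k ∈ Finset.range K,
        YY ((k + 1 : ℕ) * δ) p (am (XX ((k + 1 : ℕ) * δ) p)))) ≤
      ∑ k ∈ Finset.range K, ENNReal.ofReal (1 / K) * ENNReal.ofReal (Real.exp ((c * K) *
        YY ((k + 1 : ℕ) * δ) p (am (XX ((k + 1 : ℕ) * δ) p)))) := by
    intro p
    have hJ := convexOn_exp.map_sum_le (t := Finset.range K) (w := fun _ => (1 : ℝ) / K)
      (p := fun k => (c * K) * YY ((k + 1 : ℕ) * δ) p (am (XX ((k + 1 : ℕ) * δ) p)))
      (fun _ _ => by positivity) (by simp; field_simp) (fun _ _ => Set.mem_univ _)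
    have e1 : ∑ k ∈ Finset.range K, (1 / (K : ℝ)) • ((c * K) *
        YY ((k + 1 : ℕ) * δ) p (am (XX ((k + 1 : ℕ) * δ) p))) =
        c * ∑ k ∈ Finset.range K, YY ((k + 1 : ℕ) * δ) p (am (XX ((k + 1 : ℕ) * δ) p)) := by
      rw [Finset.mul_sum]
      refine Finset.sum_congr rfl fun k _ => ?_
      rw [smul_eq_mul]; field_simp
    rw [e1] at hJ
    refine (ENNReal.ofReal_le_ofReal hJ).trans ?_
    rw [ENNReal.ofReal_sum_of_nonneg (fun k _ => by
      rw [smul_eq_mul]; positivity)]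
    refine Finset.sum_le_sum fun k _ => ?_
    rw [smul_eq_mul, ENNReal.ofReal_mul (by positivity)]
  refine (lintegral_mono hpt).trans ?_
  rw [lintegral_finsetSum']
  · calc ∑ k ∈ Finset.range K, ∫⁻ p, ENNReal.ofReal (1 / K) * ENNReal.ofReal (Real.exp ((c * K) *
          YY ((k + 1 : ℕ) * δ) p (am (XX ((k + 1 : ℕ) * δ) p)))) ∂(μ.prod μ)
        ≤ ∑ _k ∈ Finset.range K, ENNReal.ofReal (1 / K) *
            ENNReal.ofReal (Real.exp ((c * K) ^ 2 * v / 2)) := by
          refine Finset.sum_le_sum fun k _ => ?_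
          rw [lintegral_const_mul' _ _ ENNReal.ofReal_ne_top]
          gcongr
          exact rot_mgf μ hμ (c * K) hv _
      _ = ENNReal.ofReal (Real.exp ((c * K) ^ 2 * v / 2)) := by
          rw [Finset.sum_const, Finset.card_range, nsmul_eq_mul, ← mul_assoc,
            ← ENNReal.ofReal_natCast, ← ENNReal.ofReal_mul (by positivity)]
          rw [mul_one_div_cancel hKr.ne']
          simp
  · intro k _
    apply AEMeasurable.const_mul
    apply Measurable.aemeasurable
    apply ENNReal.measurable_ofReal.comp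
    apply Real.measurable_exp.comp
    exact (measurable_apply_am (YY_meas _) (XX_meas _)).const_mul _

/-- tail bound with a discretisation error -/
lemma tail_K (hμ : μ[id] = 0) {v : ℝ} (hv0 : 0 < v)
    (hv : ∀ i, Var[fun x : Fin (N + 1) → ℝ => x i; μ] ≤ v) {φ s ε : ℝ} (hφ : 0 < φ)
    (hε : 0 < ε) (hs : ε < s) (K : ℕ) (hK : 0 < K) (hK2 : φ / K ≤ 1) :
    (μ.prod μ).real {p | s ≤ fm (XX φ p) - fm (XX 0 p)} ≤
      φ ^ 2 / (2 * K) * (∫ x, |fm x| ∂μ) / ε + Real.exp (-(s - ε) ^ 2 / (2 * φ ^ 2 * v)) := by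
  have hKr : (0 : ℝ) < K := by exact_mod_cast hK
  set δ : ℝ := φ / K with hδ
  have hδ0 : 0 < δ := by positivity
  have hKδ : (K : ℝ) * δ = φ := by rw [hδ]; field_simp
  set A : (Fin (N + 1) → ℝ) × (Fin (N + 1) → ℝ) → ℝ :=
    fun p => (1 - Real.cos δ) * ∑ k ∈ Finset.range K, |fm (XX ((k + 1 : ℕ) * δ) p)| with hA
  set B : (Fin (N + 1) → ℝ) × (Fin (N + 1) → ℝ) → ℝ :=
    fun p => ∑ k ∈ Finset.range K, YY ((k + 1 : ℕ) * δ) p (am (XX ((k + 1 : ℕ) * δ) p)) with hB
  have hcos : 0 ≤ 1 - Real.cos δ := by linarith [Real.cos_le_one δ]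
  have hcos2 : 1 - Real.cos δ ≤ δ ^ 2 / 2 := by linarith [Real.one_sub_sq_div_two_le_cos (x := δ)]
  have hsin0 : 0 < Real.sin δ := Real.sin_pos_of_pos_of_lt_pi hδ0 (by
    have := Real.pi_gt_three; linarith)
  have hsin1 : Real.sin δ ≤ δ := Real.sin_le hδ0.le
  have hsub : {p | s ≤ fm (XX φ p) - fm (XX 0 p)} ⊆
      {p | ε ≤ A p} ∪ {p | s - ε ≤ Real.sin δ * B p} := by
    intro p hp
    simp only [Set.mem_ofPred_eq, Set.mem_union] at hp ⊢
    by_contra hcon
    push Not at hcon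
    have h := sum_le δ K p
    rw [hKδ] at h
    have h2 : (1 - Real.cos δ) * (∑ k ∈ Finset.range K, fm (XX ((k + 1 : ℕ) * δ) p)) ≤ A p := by
      rw [hA]
      apply mul_le_mul_of_nonneg_left _ hcos
      exact Finset.sum_le_sum fun k _ => le_abs_self _
    linarith [hcon.1, hcon.2]
  have hAint : Integrable A (μ.prod μ) :=
    (integrable_finsetSum _ fun k _ => fmXX_integrable μ hμ _).const_mul _
  have hA0 : 0 ≤ᵐ[μ.prod μ] A := Eventually.of_forall fun p =>
    mul_nonneg hcos (Finset.sum_nonneg fun k _ => abs_nonneg _)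
  have hAval : ∫ p, A p ∂(μ.prod μ) = (1 - Real.cos δ) * (K * ∫ x, |fm x| ∂μ) := by
    rw [hA, integral_const_mul, integral_finsetSum _ fun k _ => fmXX_integrable μ hμ _]
    congr 1
    rw [Finset.sum_congr rfl fun k _ => fmXX_integral μ hμ _]
    simp
  have hM0 : 0 ≤ ∫ x, |fm x| ∂μ := integral_nonneg fun x => abs_nonneg _
  have hPA : (μ.prod μ).real {p | ε ≤ A p} ≤ φ ^ 2 / (2 * K) * (∫ x, |fm x| ∂μ) / ε := by
    have h := mul_meas_ge_le_integral_of_nonneg hA0 hAint ε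
    rw [hAval] at h
    rw [le_div_iff₀ hε, mul_comm]
    refine h.trans ?_
    have e : φ ^ 2 / (2 * K) * (∫ x, |fm x| ∂μ) = δ ^ 2 / 2 * (K * ∫ x, |fm x| ∂μ) := by
      rw [hδ]; field_simp
    rw [e]
    exact mul_le_mul_of_nonneg_right hcos2 (by positivity)
  have hPB : (μ.prod μ).real {p | s - ε ≤ Real.sin δ * B p} ≤
      Real.exp (-(s - ε) ^ 2 / (2 * φ ^ 2 * v)) := by
    set lam : ℝ := (s - ε) / (φ ^ 2 * v) with hlam
    have hlam0 : 0 < lam := by
      rw [hlam]; apply div_pos (by linarith) (by positivity)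
    have hmeasB : Measurable B := Finset.measurable_sum _ fun k _ =>
      measurable_apply_am (YY_meas _) (XX_meas _)
    have h1 := exp_sum μ hμ hv (lam * Real.sin δ) δ K hK
    have h2 : (μ.prod μ) {p | s - ε ≤ Real.sin δ * B p} ≤
        ENNReal.ofReal (Real.exp (-(s - ε) ^ 2 / (2 * φ ^ 2 * v))) := by
      have hsub2 : {p | s - ε ≤ Real.sin δ * B p} ⊆
          {p | ENNReal.ofReal (Real.exp (lam * (s - ε))) ≤
            ENNReal.ofReal (Real.exp ((lam * Real.sin δ) * B p))} := by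
        intro p hp
        simp only [Set.mem_ofPred_eq] at hp ⊢
        apply ENNReal.ofReal_le_ofReal
        apply Real.exp_le_exp.2
        rw [mul_assoc]
        exact mul_le_mul_of_nonneg_left hp hlam0.le
      have hmeasE : AEMeasurable (fun p => ENNReal.ofReal (Real.exp ((lam * Real.sin δ) * B p)))
          (μ.prod μ) := by
        apply Measurable.aemeasurable
        apply ENNReal.measurable_ofReal.comp
        apply Real.measurable_exp.comp
        exact hmeasB.const_mul _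
      have hpos : ENNReal.ofReal (Real.exp (lam * (s - ε))) ≠ 0 := by
        rw [Ne, ENNReal.ofReal_eq_zero, not_le]; exact Real.exp_pos _
      have h3 := meas_ge_le_lintegral_div hmeasE hpos ENNReal.ofReal_ne_top
      refine (measure_mono hsub2).trans (h3.trans ?_)
      refine (ENNReal.div_le_div_right h1 _).trans ?_
      rw [← ENNReal.ofReal_div_of_pos (Real.exp_pos _), ← Real.exp_sub]
      apply ENNReal.ofReal_le_ofReal
      apply Real.exp_le_exp.2
      have h4 : (lam * Real.sin δ * K) ^ 2 ≤ (lam * φ) ^ 2 := by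
        apply pow_le_pow_left₀ (by positivity)
        calc lam * Real.sin δ * K = lam * (Real.sin δ * K) := by ring
          _ ≤ lam * φ := by
            apply mul_le_mul_of_nonneg_left _ hlam0.le
            calc Real.sin δ * K ≤ δ * K := mul_le_mul_of_nonneg_right hsin1 hKr.le
              _ = φ := by rw [mul_comm]; exact hKδ
      have h5 : (lam * Real.sin δ * K) ^ 2 * v / 2 ≤ (lam * φ) ^ 2 * v / 2 := by
        have := mul_le_mul_of_nonneg_right h4 hv0.le
        linarith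
      have h6 : (lam * φ) ^ 2 * v / 2 - lam * (s - ε) = -(s - ε) ^ 2 / (2 * φ ^ 2 * v) := by
        rw [hlam]; field_simp; ring
      linarith
    have h3 := ENNReal.toReal_mono ENNReal.ofReal_ne_top h2
    rw [ENNReal.toReal_ofReal (Real.exp_pos _).le] at h3
    exact h3
  calc (μ.prod μ).real {p | s ≤ fm (XX φ p) - fm (XX 0 p)}
      ≤ (μ.prod μ).real ({p | ε ≤ A p} ∪ {p | s - ε ≤ Real.sin δ * B p}) :=
        measureReal_mono hsub
    _ ≤ (μ.prod μ).real {p | ε ≤ A p} + (μ.prod μ).real {p | s - ε ≤ Real.sin δ * B p} :=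
        measureReal_union_le _ _
    _ ≤ _ := add_le_add hPA hPB

/-- **Gaussian comparison.** -/
theorem tail_rot (hμ : μ[id] = 0) {v : ℝ} (hv0 : 0 < v)
    (hv : ∀ i, Var[fun x : Fin (N + 1) → ℝ => x i; μ] ≤ v) {φ s : ℝ} (hφ : 0 < φ) (hs : 0 < s) :
    (μ.prod μ).real {p | s ≤ fm (XX φ p) - fm (XX 0 p)} ≤
      Real.exp (-s ^ 2 / (2 * φ ^ 2 * v)) := by
  set q := (μ.prod μ).real {p | s ≤ fm (XX φ p) - fm (XX 0 p)} with hq
  have h1 : ∀ ε : ℝ, 0 < ε → ε < s → q ≤ Real.exp (-(s - ε) ^ 2 / (2 * φ ^ 2 * v)) := by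
    intro ε hε hεs
    have hlim : Tendsto (fun K : ℕ => φ ^ 2 / (2 * K) * (∫ x, |fm x| ∂μ) / ε +
        Real.exp (-(s - ε) ^ 2 / (2 * φ ^ 2 * v))) atTop
        (𝓝 (0 * (∫ x, |fm x| ∂μ) / ε + Real.exp (-(s - ε) ^ 2 / (2 * φ ^ 2 * v)))) := by
      apply Tendsto.add _ tendsto_const_nhds
      apply Tendsto.div_const
      apply Tendsto.mul_const
      apply Tendsto.const_div_atTop
      exact (tendsto_natCast_atTop_atTop).const_mul_atTop (by norm_num)
    rw [zero_mul, zero_div, zero_add] at hlim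
    refine ge_of_tendsto hlim ?_
    obtain ⟨K0, hK0⟩ := exists_nat_gt φ
    filter_upwards [eventually_ge_atTop (max K0 1)] with K hK
    have hK1 : 0 < K := lt_of_lt_of_le Nat.one_pos ((le_max_right _ _).trans hK)
    have hKr : (0 : ℝ) < K := by exact_mod_cast hK1
    have hK2 : φ / K ≤ 1 := by
      rw [div_le_one hKr]
      have : (K0 : ℝ) ≤ K := by exact_mod_cast (le_max_left _ _).trans hK
      linarith
    exact tail_K μ hμ hv0 hv hφ hε hεs K hK1 hK2
  have hlim2 : Tendsto (fun ε : ℝ => Real.exp (-(s - ε) ^ 2 / (2 * φ ^ 2 * v))) (𝓝[>] 0)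
      (𝓝 (Real.exp (-(s - 0) ^ 2 / (2 * φ ^ 2 * v)))) := by
    apply Tendsto.mono_left _ nhdsWithin_le_nhds
    apply Continuous.tendsto
    fun_prop
  rw [sub_zero] at hlim2
  refine ge_of_tendsto hlim2 ?_
  filter_upwards [Ioo_mem_nhdsGT hs] with ε hε
  exact h1 ε hε.1 hε.2

end Pool.Agent.Q218.BL
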