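import Pool.Agent.Q218.BL.Conc

set_option autoImplicit false

open MeasureTheory ProbabilityTheory Filter Topology
open scoped ENNReal NNReal

namespace Pool.Agent.Q218.BL

variable {N : ℕ} {Ω : Type*} [MeasurableSpace Ω] {P : Measure Ω}

lemma dual_eq_sum {n : ℕ} (L : StrongDual ℝ (Fin n → ℝ)) (x : Fin n → ℝ) :
    L x = ∑ i, L (Pi.single i 1) * x i := by
  have h : x = ∑ i, x i • (Pi.single i (1 : ℝ) : Fin n → ℝ) := by
    ext j
    simp [Finset.sum_apply, Pi.single_apply]
  conv_lhs => rw [h]
  rw [map_sum]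
  refine Finset.sum_congr rfl fun i _ => ?_
  rw [map_smul, smul_eq_mul, mul_comm]

/-- two centred Gaussian vectors with the same covariances have the same law -/
lemma law_eq {n : ℕ} {X Y : Fin n → Ω → ℝ} (hX : HasGaussianLaw (fun ω i => X i ω) P)
    (hY : HasGaussianLaw (fun ω i => Y i ω) P) (hX0 : ∀ i, P[X i] = 0) (hY0 : ∀ i, P[Y i] = 0)
    (h : ∀ i j, cov[X i, X j; P] = cov[Y i, Y j; P]) :
    P.map (fun ω i => X i ω) = P.map (fun ω i => Y i ω) := by
  have := hX.isProbabilityMeasure
  have hGX : IsGaussian (P.map (fun ω i => X i ω)) := hX.isGaussian_map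
  have hGY : IsGaussian (P.map (fun ω i => Y i ω)) := hY.isGaussian_map
  apply Measure.ext_of_charFunDual
  ext L
  rw [hX.charFunDual_map_eq_fun L, hY.charFunDual_map_eq_fun L]
  have hXi : ∀ i, MemLp (X i) 2 P := fun i => (hX.eval i).memLp_two
  have hYi : ∀ i, MemLp (Y i) 2 P := fun i => (hY.eval i).memLp_two
  have eX : (fun ω => L (fun i => X i ω)) = fun ω => ∑ i, L (Pi.single i 1) * X i ω := by
    funext ω; rw [dual_eq_sum]
  have eY : (fun ω => L (fun i => Y i ω)) = fun ω => ∑ i, L (Pi.single i 1) * Y i ω := by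
    funext ω; rw [dual_eq_sum]
  have mX : P[fun ω => L (fun i => X i ω)] = 0 := by
    rw [eX, integral_finsetSum _ fun i _ => ((hXi i).integrable (by norm_num)).const_mul _]
    apply Finset.sum_eq_zero
    intro i _
    rw [integral_const_mul]
    have := hX0 i
    rw [this, mul_zero]
  have mY : P[fun ω => L (fun i => Y i ω)] = 0 := by
    rw [eY, integral_finsetSum _ fun i _ => ((hYi i).integrable (by norm_num)).const_mul _]
    apply Finset.sum_eq_zero
    intro i _
    rw [integral_const_mul]
    have := hY0 i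
    rw [this, mul_zero]
  have vv : Var[fun ω => L (fun i => X i ω); P] = Var[fun ω => L (fun i => Y i ω); P] := by
    rw [eX, eY, ← covariance_self, ← covariance_self,
      covariance_fun_sum_fun_sum (fun i => (hXi i).const_mul _) (fun i => (hXi i).const_mul _),
      covariance_fun_sum_fun_sum (fun i => (hYi i).const_mul _) (fun i => (hYi i).const_mul _)]
    · refine Finset.sum_congr rfl fun i _ => Finset.sum_congr rfl fun j _ => ?_
      rw [covariance_const_mul_left, covariance_const_mul_right, covariance_const_mul_left,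
        covariance_const_mul_right, h i j]
    · exact (MeasureTheory.memLp_finsetSum _ fun i _ => (hYi i).const_mul _).aemeasurable
    · exact (MeasureTheory.memLp_finsetSum _ fun i _ => (hXi i).const_mul _).aemeasurable
  have cX : ∫ ω, ((L (fun i => X i ω) : ℝ) : ℂ) ∂P = 0 := by
    rw [integral_complex_ofReal, mX]; simp
  have cY : ∫ ω, ((L (fun i => Y i ω) : ℝ) : ℂ) ∂P = 0 := by
    rw [integral_complex_ofReal, mY]; simp
  rw [vv, mX, mY]

/-- the linear map producing the independent copy -/
noncomputable def LM (n : ℕ) (φ : ℝ) :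
    ((Fin n → ℝ) × (Fin n → ℝ)) →L[ℝ] ((Fin n → ℝ) × (Fin n → ℝ)) :=
  (ContinuousLinearMap.fst ℝ (Fin n → ℝ) (Fin n → ℝ)).prod
    ((Real.sin φ)⁻¹ • (ContinuousLinearMap.snd ℝ (Fin n → ℝ) (Fin n → ℝ) -
      Real.cos φ • ContinuousLinearMap.fst ℝ (Fin n → ℝ) (Fin n → ℝ)))

/-- **Comparison of the maxima of two correlated copies of a Gaussian vector.** -/
theorem pair_tail {X Y : Fin (N + 1) → Ω → ℝ}
    (hG : HasGaussianLaw (fun ω => ((fun i => X i ω), (fun i => Y i ω))) P)
    (hX0 : ∀ i, P[X i] = 0) (hY0 : ∀ i, P[Y i] = 0) {φ v s : ℝ} (hφ : 0 < φ)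
    (hφπ : φ < Real.pi) (hv0 : 0 < v) (hs : 0 < s)
    (hXX : ∀ i j, cov[X i, X j; P] = cov[Y i, Y j; P])
    (hXY : ∀ i j, cov[X i, Y j; P] = Real.cos φ * cov[X i, X j; P])
    (hv : ∀ i, Var[X i; P] ≤ v) :
    P.real {ω | s ≤ fm (fun i => Y i ω) - fm (fun i => X i ω)} ≤
      Real.exp (-s ^ 2 / (2 * φ ^ 2 * v)) := by
  have := hG.isProbabilityMeasure
  have hsin : 0 < Real.sin φ := Real.sin_pos_of_pos_of_lt_pi hφ hφπ
  have hXg := hG.fst
  have hYg := hG.snd
  have hXi : ∀ i, MemLp (X i) 2 P := fun i => (hXg.eval i).memLp_two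
  have hYi : ∀ i, MemLp (Y i) 2 P := fun i => (hYg.eval i).memLp_two
  set V : Fin (N + 1) → Ω → ℝ :=
    fun i ω => (Real.sin φ)⁻¹ * (Y i ω - Real.cos φ * X i ω) with hV
  have hGV : HasGaussianLaw (fun ω => ((fun i => X i ω), (fun i => V i ω))) P :=
    hG.map (LM (N + 1) φ)
  have hVg := hGV.snd
  have hV0 : ∀ i, P[V i] = 0 := by
    intro i
    simp only [hV]
    rw [integral_const_mul, integral_sub ((hYi i).integrable (by norm_num))
      (((hXi i).integrable (by norm_num)).const_mul _), integral_const_mul, hY0 i, hX0 i]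
    simp
  have hsub : ∀ i, MemLp (fun ω => Real.cos φ * X i ω) 2 P := fun i => (hXi i).const_mul _
  have hdif : ∀ j, MemLp (fun ω => Y j ω - Real.cos φ * X j ω) 2 P :=
    fun j => (hYi j).sub (hsub j)
  have hXV : ∀ i j, cov[X i, V j; P] = 0 := by
    intro i j
    simp only [hV]
    rw [covariance_const_mul_right, covariance_fun_sub_right (hXi i) (hYi j) (hsub j),
      covariance_const_mul_right, hXY]
    ring
  have hVV : ∀ i j, cov[X i, X j; P] = cov[V i, V j; P] := by
    intro i j
    simp only [hV]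
    rw [covariance_const_mul_left, covariance_const_mul_right,
      covariance_fun_sub_left (hYi i) (hsub i) (hdif j),
      covariance_fun_sub_right (hYi i) (hYi j) (hsub j),
      covariance_fun_sub_right (hsub i) (hYi j) (hsub j),
      covariance_const_mul_left, covariance_const_mul_left, covariance_const_mul_right,
      covariance_const_mul_right, hXY, covariance_comm (Y i) (X j), hXY,
      covariance_comm (X j) (X i), ← hXX]
    have h1 := Real.sin_sq_add_cos_sq φ
    field_simp
    have h2 : Real.cos φ ^ 2 = 1 - Real.sin φ ^ 2 := by linarith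
    ring_nf
    rw [h2]
    ring
  have hlaw : P.map (fun ω i => X i ω) = P.map (fun ω i => V i ω) :=
    law_eq hXg hVg hX0 hV0 hVV
  have hind : IndepFun (fun ω i => X i ω) (fun ω i => V i ω) P :=
    HasGaussianLaw.indepFun_of_covariance_eval hGV hXV
  set μ := P.map (fun ω i => X i ω) with hμdef
  have hGμ : IsGaussian μ := hXg.isGaussian_map
  have hprod : P.map (fun ω => ((fun i => X i ω), (fun i => V i ω))) = μ.prod μ := by
    rw [(indepFun_iff_map_prod_eq_prod_map_map hXg.aemeasurable hVg.aemeasurable).1 hind, ← hlaw]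
  have hμ0 : μ[id] = 0 := by
    rw [hμdef, integral_map hXg.aemeasurable (by fun_prop)]
    funext i
    have h1 := eval_integral (μ := P) (f := fun ω i => X i ω)
      (fun i => (hXi i).integrable (by norm_num)) i
    simp only [id]
    rw [h1]
    exact hX0 i
  have hvar : ∀ i, Var[fun x : Fin (N + 1) → ℝ => x i; μ] ≤ v := by
    intro i
    rw [hμdef, variance_map (measurable_pi_apply i).aemeasurable hXg.aemeasurable]
    exact hv i
  have hmain := tail_rot μ hμ0 hv0 hvar hφ hs
  have hms : MeasurableSet {p : (Fin (N + 1) → ℝ) × (Fin (N + 1) → ℝ) |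
      s ≤ fm (XX φ p) - fm (XX 0 p)} :=
    measurableSet_le measurable_const
      ((measurable_fm.comp (XX_meas φ)).sub (measurable_fm.comp (XX_meas 0)))
  rw [← hprod, map_measureReal_apply_of_aemeasurable hGV.aemeasurable hms] at hmain
  convert hmain using 2
  ext ω
  have e1 : XX φ ((fun i => X i ω), (fun i => V i ω)) = fun i => Y i ω := by
    funext i
    simp only [XX, hV, Pi.add_apply, Pi.smul_apply, smul_eq_mul]
    field_simp
    ring
  have e2 : XX 0 ((fun i => X i ω), (fun i => V i ω)) = fun i => X i ω := by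
    funext i
    simp [XX]
  simp only [Set.mem_setOf_eq, Set.mem_preimage, e1, e2]

end Pool.Agent.Q218.BL
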